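import Pool.Agent.W893.EV.Stm

set_option autoImplicit false

/-! Functions of small depth have Euler characteristic zero. -/

namespace Pool.Agent.W690.EVEUL

open Finset Pool.Agent.W893.EV

/-- the alternating sum over the faces vanishes -/
def PP {n : ℕ} (m : ℕ) (g : (Fin n → Bool) → Bool) : Prop :=
  ∀ (T : Finset (Fin n)) (x : Fin n → Bool), m < #T →
    ∑ S ∈ T.powerset, (-1 : ℤ) ^ #S *
      (if g (fun j => if j ∈ T then decide (j ∈ S) else x j) = true then 1 else 0) = 0

theorem pp_const {n : ℕ} (m : ℕ) (g : (Fin n → Bool) → Bool) (hg : ∀ x y, g x = g y) :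
    PP m g := by
  intro T x hT
  have h : ∀ S ∈ T.powerset, (-1 : ℤ) ^ #S *
      (if g (fun j => if j ∈ T then decide (j ∈ S) else x j) = true then 1 else 0) =
      (-1 : ℤ) ^ #S * (if g x = true then 1 else 0) := by
    intro S _
    rw [hg _ x]
  rw [Finset.sum_congr rfl h, ← Finset.sum_mul,
    Finset.sum_powerset_neg_one_pow_card_of_nonempty (Finset.card_pos.1 (by omega)), zero_mul]

theorem pp_step {n : ℕ} (m : ℕ) (g : (Fin n → Bool) → Bool) (i : Fin n)
    (h0 : PP m (fun x => g (Function.update x i false)))
    (h1 : PP m (fun x => g (Function.update x i true))) : PP (m + 1) g := by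
  intro T x hT
  by_cases hi : i ∈ T
  · have hT' : insert i (T.erase i) = T := Finset.insert_erase hi
    have hc : m < #(T.erase i) := by
      rw [Finset.card_erase_of_mem hi]
      omega
    have e : ∑ S ∈ T.powerset, (-1 : ℤ) ^ #S *
        (if g (fun j => if j ∈ T then decide (j ∈ S) else x j) = true then 1 else 0) =
        ∑ S ∈ (insert i (T.erase i)).powerset, (-1 : ℤ) ^ #S *
        (if g (fun j => if j ∈ T then decide (j ∈ S) else x j) = true then 1 else 0) := by
      rw [hT']
    rw [e, Finset.sum_powerset_insert (Finset.notMem_erase i T)]
    have a0 := h0 (T.erase i) x hc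
    have a1 := h1 (T.erase i) x hc
    have b0 : ∑ S ∈ (T.erase i).powerset, (-1 : ℤ) ^ #S *
        (if g (fun j => if j ∈ T then decide (j ∈ S) else x j) = true then 1 else 0) = 0 := by
      refine Eq.trans (Finset.sum_congr rfl fun S hS => ?_) a0
      have hiS : i ∉ S := fun h => by
        have := Finset.mem_powerset.1 hS h
        simp at this
      have hp : (fun j => if j ∈ T then decide (j ∈ S) else x j) = Function.update
          (fun j => if j ∈ T.erase i then decide (j ∈ S) else x j) i false := by
        funext j
        by_cases hj : j = i
        · subst hj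
          simp [hi, hiS]
        · simp [Finset.mem_erase, hj]
      rw [hp]
    have b1 : ∑ S ∈ (T.erase i).powerset, (-1 : ℤ) ^ #(insert i S) *
        (if g (fun j => if j ∈ T then decide (j ∈ insert i S) else x j) = true then 1 else 0)
        = 0 := by
      rw [← neg_eq_zero, ← Finset.sum_neg_distrib]
      refine Eq.trans (Finset.sum_congr rfl fun S hS => ?_) a1
      have hiS : i ∉ S := fun h => by
        have := Finset.mem_powerset.1 hS h
        simp at this
      have hp : (fun j => if j ∈ T then decide (j ∈ insert i S) else x j) = Function.update
          (fun j => if j ∈ T.erase i then decide (j ∈ S) else x j) i true := by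
        funext j
        by_cases hj : j = i
        · subst hj
          simp [hi]
        · simp [Finset.mem_erase, Finset.mem_insert, hj]
      rw [hp, Finset.card_insert_of_notMem hiS, pow_succ]
      ring
    rw [b0, b1, add_zero]
  · have hp : ∀ S : Finset (Fin n), (fun j => if j ∈ T then decide (j ∈ S) else x j) =
        Function.update (fun j => if j ∈ T then decide (j ∈ S) else x j) i (x i) := by
      intro S
      funext j
      by_cases hj : j = i
      · subst hj
        simp [hi]
      · simp [Function.update_of_ne hj]
    rcases hx : x i with _ | _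
    · have a0 := h0 T x (by omega)
      refine Eq.trans (Finset.sum_congr rfl fun S _ => ?_) a0
      have := hp S
      rw [hx] at this
      change _ = (-1 : ℤ) ^ #S * (if g (Function.update
        (fun j => if j ∈ T then decide (j ∈ S) else x j) i false) = true then 1 else 0)
      rw [← this]
    · have a1 := h1 T x (by omega)
      refine Eq.trans (Finset.sum_congr rfl fun S _ => ?_) a1
      have := hp S
      rw [hx] at this
      change _ = (-1 : ℤ) ^ #S * (if g (Function.update
        (fun j => if j ∈ T then decide (j ∈ S) else x j) i true) = true then 1 else 0)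
      rw [← this]

theorem EUL_proof : Pool.Agent.W893.EV.EUL := by
  intro n k f hk hf
  have h := hf PP pp_const pp_step Finset.univ (fun _ => false) (by simpa using hk)
  rw [Finset.powerset_univ] at h
  refine Eq.trans (Finset.sum_congr rfl fun S _ => ?_) h
  have e : ind S = fun j => if j ∈ (Finset.univ : Finset (Fin n)) then decide (j ∈ S)
      else (fun _ => false : Fin n → Bool) j := by
    funext j
    simp [ind]
  rw [e]

end Pool.Agent.W690.EVEUL
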