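import Mathlib
import Pool.Agent.Helper799.TeCube

set_option autoImplicit false

/-!
# Euclidean spaces are not uniformly complemented in spaces of continuous functions
-/

open Set Topology
open Pool.Helper799.Te

namespace Pool.Agent.W690.CK

set_option linter.unusedSectionVars false
variable {K : Type*} [TopologicalSpace K] [CompactSpace K] [T2Space K]
variable {ι : Type*} [Fintype ι] [DecidableEq ι]

/-- the sum of the norms of the images of a partition of unity -/
lemma sum_norm_le (b : C(K, ℝ) →L[ℝ] EuclideanSpace ℝ ι) {T : Type*} [Fintype T]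
    (φ : T → C(K, ℝ)) (hφ0 : ∀ i t, 0 ≤ φ i t) (hφ1 : ∀ t, ∑ i, φ i t = 1) :
    ∑ i, ‖b (φ i)‖ ≤ (16 / 9) * (Real.sqrt (Fintype.card ι) * ‖b‖) := by
  have h1 : ∀ i, ‖b (φ i)‖ ≤ (16 / 9) * Av (fun ε : ι → Bool => |∑ j, sb (ε j) * (b (φ i)) j|) := by
    intro i
    have h := khin (fun j => (b (φ i)) j)
    have e : ‖b (φ i)‖ = Real.sqrt (∑ j, (b (φ i)) j ^ 2) := by
      rw [EuclideanSpace.norm_eq]
      congr 1
      apply Finset.sum_congr rfl
      intro j _
      rw [Real.norm_eq_abs, sq_abs]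
    rw [e]
    linarith
  have h2 : ∑ i, ‖b (φ i)‖ ≤
      (16 / 9) * Av (fun ε : ι → Bool => ∑ i, |∑ j, sb (ε j) * (b (φ i)) j|) := by
    rw [Av_sum, Finset.mul_sum]
    exact Finset.sum_le_sum fun i _ => h1 i
  refine h2.trans ?_
  have h3 : ∀ ε : ι → Bool, ∑ i, |∑ j, sb (ε j) * (b (φ i)) j| ≤
      Real.sqrt (Fintype.card ι) * ‖b‖ := by
    intro ε
    set θ : T → ℝ := fun i => if 0 ≤ ∑ j, sb (ε j) * (b (φ i)) j then 1 else -1 with hθ
    have hθabs : ∀ i, |∑ j, sb (ε j) * (b (φ i)) j| = θ i * ∑ j, sb (ε j) * (b (φ i)) j := by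
      intro i
      rw [hθ]
      by_cases hc : 0 ≤ ∑ j, sb (ε j) * (b (φ i)) j
      · simp only [hc, if_true, one_mul]; exact abs_of_nonneg hc
      · simp only [hc, if_false]; rw [abs_of_neg (not_le.1 hc)]; ring
    have hθ1 : ∀ i, |θ i| ≤ 1 := by
      intro i
      rw [hθ]
      by_cases hc : 0 ≤ ∑ j, sb (ε j) * (b (φ i)) j <;> simp [hc]
    set g : C(K, ℝ) := ∑ i, θ i • φ i with hg
    have hgn : ‖g‖ ≤ 1 := by
      rw [ContinuousMap.norm_le _ zero_le_one]
      intro t
      rw [hg, Real.norm_eq_abs]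
      simp only [ContinuousMap.coe_sum, ContinuousMap.coe_smul, Finset.sum_apply, Pi.smul_apply,
        smul_eq_mul]
      calc |∑ i, θ i * φ i t| ≤ ∑ i, |θ i * φ i t| := Finset.abs_sum_le_sum_abs _ _
        _ ≤ ∑ i, φ i t := by
          apply Finset.sum_le_sum
          intro i _
          rw [abs_mul, abs_of_nonneg (hφ0 i t)]
          exact mul_le_of_le_one_left (hφ0 i t) (hθ1 i)
        _ = 1 := hφ1 t
    set v : EuclideanSpace ℝ ι := WithLp.toLp 2 (fun j => sb (ε j)) with hv
    have hvn : ‖v‖ = Real.sqrt (Fintype.card ι) := by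
      rw [EuclideanSpace.norm_eq]
      congr 1
      simp [hv, abs_sb]
    have h4 : ∑ i, |∑ j, sb (ε j) * (b (φ i)) j| = inner ℝ v (b g) := by
      rw [hg, map_sum, inner_sum]
      apply Finset.sum_congr rfl
      intro i _
      rw [hθabs, map_smul, inner_smul_right, PiLp.inner_apply]
      congr 1
      apply Finset.sum_congr rfl
      intro j _
      simp [hv, mul_comm]
    rw [h4]
    calc inner ℝ v (b g) ≤ ‖v‖ * ‖b g‖ := real_inner_le_norm _ _
      _ ≤ ‖v‖ * (‖b‖ * ‖g‖) := by gcongr; exact b.le_opNorm g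
      _ ≤ ‖v‖ * (‖b‖ * 1) := by gcongr
      _ = Real.sqrt (Fintype.card ι) * ‖b‖ := by rw [mul_one, hvn]
  have h5 := Av_mono h3
  rw [Av_const] at h5
  gcongr

/-- finite partitions of unity adapted to a continuous map into a normed space -/
lemma exists_partition {F : Type*} [NormedAddCommGroup F] (f : K → F) (hf : Continuous f)
    {η : ℝ} (hη : 0 < η) : ∃ (T : Finset K) (φ : T → C(K, ℝ)), (∀ i t, 0 ≤ φ i t) ∧
      (∀ t, ∑ i, φ i t = 1) ∧ ∀ i t, φ i t ≠ 0 → ‖f t - f (i : K)‖ < η := by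
  set U : K → Set K := fun s => {t | ‖f t - f s‖ < η} with hU
  have hUo : ∀ s, IsOpen (U s) := fun s =>
    isOpen_lt ((hf.sub continuous_const).norm) continuous_const
  obtain ⟨T, hT⟩ := CompactSpace.elim_nhds_subcover U (fun s => (hUo s).mem_nhds (by
    show ‖f s - f s‖ < η
    rw [sub_self, norm_zero]; exact hη))
  obtain ⟨p, hp⟩ := PartitionOfUnity.exists_isSubordinate (X := K) (s := univ) isClosed_univ
    (fun s : T => U s) (fun s => hUo s) (by
      intro t _
      have h1 : t ∈ ⋃ x ∈ T, U x := by rw [hT]; trivial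
      rw [mem_iUnion₂] at h1
      obtain ⟨s, hs, hts⟩ := h1
      exact mem_iUnion.2 ⟨⟨s, hs⟩, hts⟩)
  refine ⟨T, fun s => p s, fun i t => p.nonneg i t, fun t => ?_, fun i t ht => ?_⟩
  · have := p.sum_eq_one (mem_univ t)
    rwa [finsum_eq_sum_of_fintype] at this
  · exact hp i (subset_closure ht)

/-- **the Euclidean space of dimension `n` is at best `(9/16) √n`-complemented in `C(K)`** -/
theorem sqrt_le (a : EuclideanSpace ℝ ι →L[ℝ] C(K, ℝ)) (b : C(K, ℝ) →L[ℝ] EuclideanSpace ℝ ι)
    (hab : ∀ e, b (a e) = e) : Real.sqrt (Fintype.card ι) ≤ (16 / 9) * (‖a‖ * ‖b‖) := by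
  set n : ℝ := (Fintype.card ι : ℝ) with hn
  have hn0 : 0 ≤ n := by positivity
  -- the vector-valued function
  set f : K → EuclideanSpace ℝ ι := fun t => WithLp.toLp 2 (fun j => a (EuclideanSpace.single j 1) t)
    with hf
  have hfc : Continuous f := by
    refine (PiLp.continuous_toLp 2 _).comp ?_
    exact continuous_pi fun j => (a (EuclideanSpace.single j 1)).continuous
  have hfa : ∀ (x : EuclideanSpace ℝ ι) (t : K), a x t = inner ℝ x (f t) := by
    intro x t
    have h1 : x = ∑ j, x j • EuclideanSpace.single j (1:ℝ) := by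
      ext k
      simp [Finset.sum_apply, Pi.single_apply]
    conv_lhs => rw [h1]
    rw [map_sum, ContinuousMap.coe_sum, Finset.sum_apply, PiLp.inner_apply]
    apply Finset.sum_congr rfl
    intro j _
    rw [map_smul]
    simp [hf, mul_comm]
  have hfn : ∀ t, ‖f t‖ ≤ ‖a‖ := by
    intro t
    by_cases h0 : ‖f t‖ = 0
    · rw [h0]; positivity
    have hpos : 0 < ‖f t‖ := lt_of_le_of_ne (norm_nonneg _) (Ne.symm h0)
    have h1 : ‖f t‖ * ‖f t‖ ≤ ‖a‖ * ‖f t‖ := by
      have h2 := hfa (f t) t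
      rw [real_inner_self_eq_norm_mul_norm] at h2
      rw [← h2]
      calc a (f t) t ≤ ‖a (f t) t‖ := le_abs_self _
        _ ≤ ‖a (f t)‖ := ContinuousMap.norm_coe_le_norm _ _
        _ ≤ ‖a‖ * ‖f t‖ := a.le_opNorm _
    exact le_of_mul_le_mul_right h1 hpos
  have key : ∀ η : ℝ, 0 < η → n ≤ (16 / 9) * (‖a‖ * ‖b‖) * Real.sqrt n + η * (n * ‖b‖) := by
    intro η hη
    obtain ⟨T, φ, hφ0, hφ1, hφ2⟩ := exists_partition f hfc hη
    -- approximation of the coordinate functions
    set g : ι → C(K, ℝ) := fun j => ∑ i : T, (f (i : K)) j • φ i with hg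
    have hgf : ∀ j, ‖a (EuclideanSpace.single j 1) - g j‖ ≤ η := by
      intro j
      rw [ContinuousMap.norm_le _ hη.le]
      intro t
      have h1 : (a (EuclideanSpace.single j 1) - g j) t =
          ∑ i : T, ((f t) j - (f (i : K)) j) * φ i t := by
        rw [ContinuousMap.sub_apply, hg]
        simp only [ContinuousMap.coe_sum, ContinuousMap.coe_smul, Finset.sum_apply, Pi.smul_apply,
          smul_eq_mul, sub_mul, Finset.sum_sub_distrib]
        rw [← Finset.mul_sum, hφ1, mul_one]
      rw [h1, Real.norm_eq_abs]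
      calc |∑ i : T, ((f t) j - (f (i : K)) j) * φ i t|
          ≤ ∑ i : T, |((f t) j - (f (i : K)) j) * φ i t| := Finset.abs_sum_le_sum_abs _ _
        _ ≤ ∑ i : T, η * φ i t := by
          apply Finset.sum_le_sum
          intro i _
          rw [abs_mul, abs_of_nonneg (hφ0 i t)]
          by_cases h0 : φ i t = 0
          · rw [h0]; simp
          · have h2 := hφ2 i t h0
            have h3 : |(f t) j - (f (i : K)) j| ≤ ‖f t - f (i : K)‖ := by
              have := PiLp.norm_apply_le (f t - f (i : K)) j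
              simpa using this
            have h4 := hφ0 i t
            have h5 : |(f t) j - (f (i : K)) j| ≤ η := h3.trans h2.le
            exact mul_le_mul_of_nonneg_right h5 h4
        _ = η := by rw [← Finset.mul_sum, hφ1, mul_one]
    have h1 : n = ∑ j, (b (a (EuclideanSpace.single j 1))) j := by
      simp only [hab]
      simp [hn]
    have h2 : ∑ j, (b (a (EuclideanSpace.single j 1))) j =
        ∑ j, (b (g j)) j + ∑ j, (b (a (EuclideanSpace.single j 1) - g j)) j := by
      rw [← Finset.sum_add_distrib]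
      apply Finset.sum_congr rfl
      intro j _
      rw [map_sub]; simp
    have h3 : ∑ j, (b (a (EuclideanSpace.single j 1) - g j)) j ≤ η * (n * ‖b‖) := by
      calc ∑ j, (b (a (EuclideanSpace.single j 1) - g j)) j ≤ ∑ _j : ι, ‖b‖ * η := by
            apply Finset.sum_le_sum
            intro j _
            calc (b (a (EuclideanSpace.single j 1) - g j)) j
                ≤ ‖(b (a (EuclideanSpace.single j 1) - g j)) j‖ := le_abs_self _
              _ ≤ ‖b (a (EuclideanSpace.single j 1) - g j)‖ := PiLp.norm_apply_le _ j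
              _ ≤ ‖b‖ * ‖a (EuclideanSpace.single j 1) - g j‖ := b.le_opNorm _
              _ ≤ ‖b‖ * η := by gcongr; exact hgf j
        _ = η * (n * ‖b‖) := by
            rw [Finset.sum_const, Finset.card_univ, nsmul_eq_mul, hn]; ring
    have h4 : ∑ j, (b (g j)) j = ∑ i : T, inner ℝ (f (i : K)) (b (φ i)) := by
      simp only [hg, map_sum, map_smul]
      simp only [PiLp.inner_apply, WithLp.ofLp_sum, Finset.sum_apply]
      rw [Finset.sum_comm]
      apply Finset.sum_congr rfl
      intro i _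
      apply Finset.sum_congr rfl
      intro j _
      simp [mul_comm]
    have h5 : ∑ i : T, inner ℝ (f (i : K)) (b (φ i)) ≤ ‖a‖ * ∑ i : T, ‖b (φ i)‖ := by
      rw [Finset.mul_sum]
      apply Finset.sum_le_sum
      intro i _
      calc inner ℝ (f (i : K)) (b (φ i)) ≤ ‖f (i : K)‖ * ‖b (φ i)‖ := real_inner_le_norm _ _
        _ ≤ ‖a‖ * ‖b (φ i)‖ := by gcongr; exact hfn _
    have h6 := sum_norm_le b φ hφ0 hφ1
    calc n = ∑ j, (b (g j)) j + ∑ j, (b (a (EuclideanSpace.single j 1) - g j)) j := by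
          rw [← h2]; exact h1
      _ ≤ ‖a‖ * ((16 / 9) * (Real.sqrt n * ‖b‖)) + η * (n * ‖b‖) := by
          refine add_le_add ?_ h3
          rw [h4]
          refine h5.trans ?_
          gcongr
      _ = _ := by ring
  have h1 : n ≤ (16 / 9) * (‖a‖ * ‖b‖) * Real.sqrt n := by
    refine le_of_forall_pos_le_add fun δ hδ => ?_
    have hpos : 0 < n * ‖b‖ + 1 := by positivity
    have h2 := key (δ / (n * ‖b‖ + 1)) (by positivity)
    refine h2.trans ?_
    gcongr
    rw [div_mul_eq_mul_div, div_le_iff₀ hpos]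
    nlinarith [norm_nonneg b, mul_nonneg hn0 (norm_nonneg b)]
  rcases hn0.eq_or_lt with h0 | h0
  · rw [← h0, Real.sqrt_zero]; positivity
  · have hs : 0 < Real.sqrt n := Real.sqrt_pos.2 h0
    have h2 : Real.sqrt n * Real.sqrt n ≤ (16 / 9) * (‖a‖ * ‖b‖) * Real.sqrt n := by
      rw [Real.mul_self_sqrt hn0]; exact h1
    exact le_of_mul_le_mul_right h2 hs

end Pool.Agent.W690.CK
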